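import Mathlib

open Polynomial Finset

namespace Pool.Agent.Results.MP_c1403d_pr.Lead

/-- The coefficients `c^{(n)}_{jk}`, from `D (z^j b^k a^{-(k+1)}) =
j z^{j-1} b^k a^{-(k+1)} + k z^{j+1} b^{k-1} a^{-k} - (k+1) z^j b^{k+1} a^{-(k+2)}`. -/
def c : ℕ → ℕ → ℕ → ℚ
  | 0, j, k => if j = 0 ∧ k = 0 then 1 else 0
  | n + 1, j, k => (j + 1) * c n (j + 1) k + (if j = 0 then 0 else (k + 1) * c n (j - 1) (k + 1)) -
      k * c n j (k - 1)

/-- The reduction `R[j,k,k+2]`, with `[j,0,2]` written as `X ^ j`. -/
noncomputable def R : ℕ → ℕ → ℚ[X]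
  | j, 0 => X ^ j
  | j, 1 => ((j : ℚ) / 2) • R (j - 1) 0
  | j, k + 2 => ((j : ℚ) / (k + 3)) • R (j - 1) (k + 1) + ((k + 1 : ℚ) / (k + 3)) • R (j + 1) k

/-- The polynomial `p_n`. -/
noncomputable def p (n : ℕ) : ℚ[X] := ∑ j ∈ range (n + 1), ∑ k ∈ range (n + 1), c n j k • R j k

theorem c_zero (n : ℕ) : ∀ j k, n < 2 * j + k → c n j k = 0 := by
  induction n with
  | zero => intro j k h; rw [c, if_neg (by omega)]
  | succ n ih =>
    intro j k h
    rw [c, ih (j + 1) k (by omega)]
    rcases k with _ | k <;> split_ifs with e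
    · simp
    · simp [ih (j - 1) 1 (by omega)]
    · simp [ih j k (by omega)]
    · simp [ih j k (by omega), ih (j - 1) (k + 1 + 1) (by omega)]

theorem R_co (k : ℕ) : ∀ j i, 2 * j + k ≤ 2 * i →
    (R j k).coeff i = if 2 * j + k = 2 * i then 1 / (k + 1 : ℚ) else 0 := by
  induction k using Nat.twoStepInduction with
  | zero =>
    intro j i _
    simp only [R, coeff_X_pow, add_zero, Nat.cast_zero, zero_add, div_one]
    exact if_congr (by omega) rfl rfl
  | one => intro j i h; rw [R, R, coeff_smul, coeff_X_pow, if_neg (by omega), if_neg (by omega)]; simp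
  | more k h1 h2 =>
    intro j i h
    rw [R, coeff_add, coeff_smul, coeff_smul, h2 _ _ (by omega), h1 _ _ (by omega),
      if_neg (by omega)]
    split_ifs <;> first | omega | (push_cast; simp only [smul_eq_mul]; field_simp; ring)

/-- The top-weight operator. -/
noncomputable def L (f : ℚ[X]) : ℚ[X] := derivative f - X ^ 2 * derivative f - X * f

/-- The top-weight polynomials. -/
noncomputable def P : ℕ → ℚ[X]
  | 0 => 1
  | n + 1 => L (P n)

theorem L_co (f : ℚ[X]) (k : ℕ) :
    (L f).coeff k = (k + 1) * f.coeff (k + 1) - k * f.coeff (k - 1) := by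
  rcases k with _ | _ | k <;>
    simp [L, coeff_derivative, coeff_X_mul, coeff_X_pow_mul'] <;> ring

theorem P_zero (n : ℕ) : ∀ k, n < k → (P n).coeff k = 0 := by
  induction n with
  | zero => intro k h; rw [P, coeff_one, if_neg (by omega)]
  | succ n ih => intro k h; rw [P, L_co, ih _ (by omega), ih _ (by omega)]; ring

theorem c_top (n : ℕ) : ∀ j k, 2 * j + k = n → c n j k = (P n).coeff k := by
  induction n with
  | zero => intro j k h; rw [c, P, coeff_one]; exact if_congr (by omega) rfl rfl
  | succ n ih =>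
    intro j k h
    rw [c, P, L_co, c_zero n _ _ (by omega), mul_zero, zero_add]
    congr 1
    · split_ifs with e
      · rw [P_zero n _ (by omega), mul_zero]
      · rw [ih _ _ (by omega)]
    · rcases k with _ | k
      · simp
      · rw [ih _ _ (by omega)]

/-- Half the integral over `[-1, 1]`. -/
noncomputable def I : ℚ[X] →ₗ[ℚ] ℚ :=
  lsum fun k => (if Even k then 1 / (k + 1 : ℚ) else 0) • LinearMap.id

theorem I_der (f : ℚ[X]) : I (derivative f) = (f.eval 1 - f.eval (-1)) / 2 := by
  induction f using Polynomial.induction_on' with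
  | add f g hf hg => simp only [map_add, hf, hg, eval_add]; ring
  | monomial n a =>
    rw [derivative_monomial, I, lsum_apply, sum_monomial_index _ _ (by simp)]
    rcases n with _ | n
    · simp
    · rcases Nat.even_or_odd n with h | h
      · simp [h, pow_succ, h.neg_one_pow]; field_simp
      · simp [Nat.not_even_iff_odd.2 h, pow_succ, h.neg_one_pow]

theorem p_co (m : ℕ) : (p (2 * m)).coeff m = I (P (2 * m)) := by
  rw [I, lsum_apply, sum_over_range' _ (by simp) (2 * m + 1)
    (Nat.lt_succ_of_le (natDegree_le_iff_coeff_eq_zero.2 (P_zero _))), p, sum_comm,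
    finsetSum_coeff]
  refine sum_congr rfl fun k hk => ?_
  have hk := mem_range.1 hk
  have z : ∀ j, 2 * j + k ≠ 2 * m → (c (2 * m) j k • R j k).coeff m = 0 := fun j h => by
    rw [coeff_smul]
    rcases lt_or_gt_of_ne h with h | h
    · rw [R_co _ _ _ h.le, if_neg h.ne, smul_zero]
    · rw [c_zero _ _ _ h, zero_smul]
  rw [finsetSum_coeff]
  split_ifs with e
  · obtain ⟨t, rfl⟩ := e
    rw [sum_eq_single (m - t) (fun j _ h => z j (by omega)) (fun h => absurd (mem_range.2
      (by omega)) h), coeff_smul, R_co _ _ _ (by omega), if_pos (by omega), c_top _ _ _ (by omega)]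
    simp [mul_comm]
  · rw [sum_eq_zero fun j _ => z j fun h => e ⟨m - j, by omega⟩]
    simp

/-- Binomial transforms. -/
noncomputable def E (ε : ℚ) (n : ℕ) : ℚ[X] :=
  ∑ ij ∈ antidiagonal n, n.choose ij.1 • (ε ^ ij.2 • P ij.1)

theorem E_succ (ε : ℚ) (n : ℕ) : E ε (n + 1) = L (E ε n) + ε • E ε n := by
  rw [E, sum_antidiagonal_choose_succ_nsmul fun i j => ε ^ j • P i, add_comm, E, smul_sum]
  congr 1
  · simp only [L, map_sum, mul_sum, ← sum_sub_distrib]
    refine sum_congr rfl fun ij h => ?_
    rw [Nat.choose_symm_of_eq_add (mem_antidiagonal.1 h).symm]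
    simp only [P, L, map_nsmul, map_smul, smul_sub, mul_smul_comm]
  · refine sum_congr rfl fun ij _ => ?_
    rw [smul_comm ε, smul_smul ε, pow_succ']

theorem E_rel (n : ℕ) : E 1 n + E (-1) n + X * (E 1 n - E (-1) n) = if n = 0 then 2 else 0 := by
  induction n with
  | zero => simp [E, P]; norm_num
  | succ n ih =>
    have d := congrArg derivative ih
    have z : derivative (if n = 0 then (2 : ℚ[X]) else 0) = 0 := by split_ifs <;> simp
    simp only [z, map_add, map_sub, derivative_mul, derivative_X] at d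
    simp only [E_succ, L, one_smul, neg_smul, if_neg (Nat.succ_ne_zero n)]
    linear_combination (1 - X ^ 2) * d

theorem I_E (n : ℕ) : I (E 1 n - E (-1) n) = if n = 1 then 2 else 0 := by
  rcases n with _ | n
  · simp [E]
  · have : E 1 (n + 1) - E (-1) (n + 1) =
        derivative ((1 - X ^ 2) * (E 1 n - E (-1) n) + X * if n = 0 then 2 else 0) := by
      have z : derivative (if n = 0 then (2 : ℚ[X]) else 0) = 0 := by split_ifs <;> simp
      simp only [E_succ, L, one_smul, neg_smul, map_add, map_sub, derivative_mul, z,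
        derivative_X, derivative_one, derivative_X_sq, C_ofNat]
      linear_combination E_rel n
    rw [this, I_der]
    split_ifs <;> first | omega | simp

theorem lead (n : ℕ) : I (P n) = (2 - 2 ^ n) * _root_.bernoulli n := by
  let T : PowerSeries ℚ := PowerSeries.mk fun n => I (P n) / n.factorial
  let e := PowerSeries.exp ℚ
  have h1 : T * (e - PowerSeries.rescale (-1) e) = 2 * PowerSeries.X := by
    ext n
    have := I_E n
    simp only [E, ← sum_sub_distrib, map_sum, map_sub, map_nsmul, map_smul, one_pow] at this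
    have f : (n.factorial : ℚ) ≠ 0 := by positivity
    rw [PowerSeries.coeff_mul, show (2 : PowerSeries ℚ) = PowerSeries.C 2 from rfl,
      PowerSeries.coeff_C_mul, PowerSeries.coeff_X]
    apply mul_left_cancel₀ f
    rw [mul_sum, show (n.factorial : ℚ) * (2 * if n = 1 then 1 else 0) = if n = 1 then 2 else 0 by
      split_ifs with h <;> simp [h], ← this]
    refine sum_congr rfl fun ij h => ?_
    rw [← mem_antidiagonal.1 h, ← Nat.add_choose_mul_factorial_mul_factorial,
      Nat.choose_symm_add]
    simp only [T, e, PowerSeries.coeff_mk, map_sub, PowerSeries.coeff_rescale,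
      PowerSeries.coeff_exp, nsmul_eq_mul, smul_eq_mul, eq_ratCast, Rat.cast_div, Rat.cast_one,
      Rat.cast_natCast]
    push_cast
    field_simp
  have b1 := bernoulliPowerSeries_mul_exp_sub_one ℚ
  have b2 := congrArg (PowerSeries.rescale (2 : ℚ)) b1
  have x1 := PowerSeries.exp_mul_exp_eq_exp_add (A := ℚ) 1 1
  have x2 := PowerSeries.exp_mul_exp_eq_exp_add (A := ℚ) 1 (-1)
  rw [one_add_one_eq_two, PowerSeries.rescale_one, RingHom.id_apply] at x1
  rw [add_neg_cancel, PowerSeries.rescale_one, RingHom.id_apply, PowerSeries.rescale_zero_apply,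
    PowerSeries.constantCoeff_exp, map_one] at x2
  rw [map_mul, map_sub, map_one, ← x1, PowerSeries.rescale_X,
    show PowerSeries.C (2 : ℚ) = 2 from rfl] at b2
  have ne : e - PowerSeries.rescale (-1) e ≠ 0 := fun h => by
    rw [h, mul_zero] at h1
    have := congrArg (PowerSeries.coeff 1) h1
    rw [show (2 : PowerSeries ℚ) = PowerSeries.C 2 from rfl, PowerSeries.coeff_C_mul] at this
    simp at this
  have h2 : T = 2 * bernoulliPowerSeries ℚ - PowerSeries.rescale 2 (bernoulliPowerSeries ℚ) := by
    apply mul_right_cancel₀ ne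
    rw [h1]
    linear_combination (-2 * (e + 1) * PowerSeries.rescale (-1) e) * b1 +
      PowerSeries.rescale (-1) e * b2 + ((2 * bernoulliPowerSeries ℚ -
        PowerSeries.rescale 2 (bernoulliPowerSeries ℚ)) * e - 2 * PowerSeries.X) * x2
  have h3 := congrArg (PowerSeries.coeff n) h2
  rw [show (2 : PowerSeries ℚ) = PowerSeries.C 2 from rfl] at h3
  simp only [T, PowerSeries.coeff_mk, map_sub, PowerSeries.coeff_C_mul, PowerSeries.coeff_rescale,
    bernoulliPowerSeries, Algebra.algebraMap_self, RingHom.id_apply] at h3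
  have f : (n.factorial : ℚ) ≠ 0 := by positivity
  field_simp at h3
  linear_combination h3

theorem shift {A : Type} [AddCommGroup A] {N : ℕ} {f : ℕ → A} (h0 : f 0 = 0) (h1 : f N = 0) :
    ∑ j ∈ range N, f j = ∑ j ∈ range N, f (j + 1) := by
  have := (sum_range_succ f N).symm.trans (sum_range_succ' f N)
  rwa [h0, h1, add_zero, add_zero] at this

theorem expand {A : Type} [CommRing A] [Algebra ℚ A] (D : Derivation ℚ A A) {z a w b : A}
    (hw : a * w = 1) (hz : D z = 1) (ha : D a = b) (hb : D b = z * a) (n : ℕ) :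
    ∀ N, n < N → D^[n] w =
      ∑ j ∈ range N, ∑ k ∈ range N, c n j k • (z ^ j * b ^ k * w ^ (k + 1)) := by
  have dw : D w = -b * w ^ 2 := by
    have := congrArg D hw
    rw [Derivation.leibniz, ha, D.map_one_eq_zero, smul_eq_mul, smul_eq_mul] at this
    linear_combination w * this - D w * hw
  have dt : ∀ j k : ℕ, D (z ^ j * b ^ k * w ^ (k + 1)) =
      (j : ℚ) • (z ^ (j - 1) * b ^ k * w ^ (k + 1)) +
      (k : ℚ) • (z ^ (j + 1) * b ^ (k - 1) * w ^ (k - 1 + 1)) -
      (k + 1 : ℚ) • (z ^ j * b ^ (k + 1) * w ^ (k + 1 + 1)) := fun j k => by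
    simp only [Derivation.leibniz, Derivation.leibniz_pow, hz, hb, dw, smul_eq_mul, nsmul_eq_mul,
      Algebra.smul_def, map_add, map_natCast, map_one, add_tsub_cancel_right]
    rcases k with _ | k
    · simp; ring
    · simp only [add_tsub_cancel_right]
      push_cast
      linear_combination ((k + 1) * z ^ (j + 1) * b ^ k * w ^ (k + 1)) * hw
  induction n with
  | zero =>
    intro N hN
    rw [sum_eq_single 0 (fun j _ h => by simp [c, h]) (by simp; omega),
      sum_eq_single 0 (fun j _ h => by simp [c, h]) (by simp; omega)]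
    simp [c]
  | succ n ih =>
    intro N hN
    rw [Function.iterate_succ_apply', ih N (by omega)]
    simp only [map_sum, D.map_smul, dt, c, smul_add, smul_sub, add_smul, sub_smul, smul_smul,
      sum_add_distrib, sum_sub_distrib]
    refine congrArg₂ (· - ·) (congrArg₂ (· + ·) ?_ ?_) ?_
    · refine (shift ?_ ?_).trans ?_
      · simp
      · refine sum_eq_zero fun k _ => ?_
        rw [c_zero n _ _ (by omega)]; simp
      · simp [mul_comm]
    · symm
      refine (shift ?_ ?_).trans (sum_congr rfl fun j _ => ?_)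
      · simp
      · refine sum_eq_zero fun k _ => ?_
        rw [c_zero n _ _ (by omega)]; simp
      symm
      refine (shift ?_ ?_).trans ?_
      · simp
      · rw [c_zero n _ _ (by omega)]; simp
      · simp [mul_comm]
    · rw [← sum_add_distrib]
      refine sum_congr rfl fun j _ => ?_
      rw [← sum_add_distrib]
      symm
      refine (shift ?_ ?_).trans (sum_congr rfl fun k _ => ?_)
      · simp
      · rw [c_zero n _ _ (by omega)]; simp
      · rw [← add_smul]; congr 1; simp; ring

theorem result :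
    (∀ (A : Type) [CommRing A] [Algebra ℚ A] (D : Derivation ℚ A A) (z a w b : A), a * w = 1 →
      D z = 1 → D a = b → D b = z * a → ∀ n : ℕ, w * D^[n] w =
        ∑ j ∈ range (n + 1), ∑ k ∈ range (n + 1), c n j k • (z ^ j * b ^ k * w ^ (k + 2))) ∧
    (∀ n j k, n < j ∨ n < k → c n j k = 0) ∧
    ∀ m : ℕ, (p (2 * m)).coeff m = (2 - 2 ^ (2 * m)) * _root_.bernoulli (2 * m) := by
  refine ⟨fun A _ _ D z a w b hw hz ha hb n => ?_, fun n j k h => c_zero n j k (by omega),
    fun m => (p_co m).trans (lead _)⟩
  rw [expand D hw hz ha hb n _ n.lt_succ_self]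
  rw [mul_sum]
  refine sum_congr rfl fun j _ => ?_
  rw [mul_sum]
  refine sum_congr rfl fun k _ => ?_
  rw [mul_smul_comm]
  congr 1
  ring

end Pool.Agent.Results.MP_c1403d_pr.Lead
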